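import Mathlib
import Pool.Agent.MP_d985ac_gt.H83.Closure

set_option autoImplicit false

open Set Filter Topology

namespace Pool.Agent.MP_d985ac_gt.H83

/-- `A` is dense with respect to the functions indexed by `B`. -/
def Dns {K L : Type} (Φ : K → L → ℝ) (A : Set K) (B : Set L) : Prop :=
  ∀ x, ∀ F : Finset L, (∀ y ∈ F, y ∈ B) → ∀ ε > 0, ∃ a ∈ A, ∀ y ∈ F, |Φ a y - Φ x y| < ε

theorem Dns.exists_closure {K L : Type} [TopologicalSpace K] [CompactSpace K] {Φ : K → L → ℝ}
    (hK : ∀ y, Continuous fun x => Φ x y) {A : Set K} {B : Set L} (h : Dns Φ A B) (x : K) :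
    ∃ z ∈ closure A, ∀ b ∈ B, Φ z b = Φ x b := by
  classical
  let t : B × ℕ → Set K := fun p => {z | |Φ z p.1.1 - Φ x p.1.1| ≤ 1 / ((p.2 : ℝ) + 1)}
  have ht : ∀ p, IsClosed (t p) := fun p =>
    isClosed_le (((hK p.1.1).sub continuous_const).abs) continuous_const
  obtain ⟨z, hz, hzt⟩ := (isClosed_closure (s := A)).isCompact.inter_iInter_nonempty t ht (by
    intro u
    obtain ⟨a, ha, hclose⟩ := h x (u.image fun p => p.1.1) (by
      intro y hy
      obtain ⟨p, -, rfl⟩ := Finset.mem_image.1 hy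
      exact p.1.2) (1 / (((u.sup fun p => p.2 : ℕ) : ℝ) + 1)) Nat.one_div_pos_of_nat
    refine ⟨a, subset_closure ha, mem_iInter₂.2 fun p hp => ?_⟩
    have h1 := hclose p.1.1 (Finset.mem_image_of_mem _ hp)
    have h2 : p.2 ≤ u.sup fun p => p.2 := Finset.le_sup (f := fun p : B × ℕ => p.2) hp
    exact h1.le.trans (Nat.one_div_le_one_div h2))
  refine ⟨z, hz, fun b hb => ?_⟩
  refine eq_of_forall_dist_le fun ε hε => ?_
  obtain ⟨n, hn⟩ := exists_nat_one_div_lt hε
  have := mem_iInter.1 hzt (⟨b, hb⟩, n)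
  rw [Real.dist_eq]
  exact le_trans this hn.le

/-- The properties of the retraction attached to a conjugate pair. -/
structure IsRet {K L : Type} [TopologicalSpace K] (Φ : K → L → ℝ) (A : Set K) (B : Set L)
    (r : K → K) : Prop where
  mem : ∀ x, r x ∈ closure A
  val : ∀ x, ∀ b ∈ B, Φ (r x) b = Φ x b
  uniq : ∀ z x, z ∈ closure A → (∀ b ∈ B, Φ z b = Φ x b) → r x = z
  dual : ∀ y, ∃ w, ∀ x, Φ (r x) y = Φ x w
  cont : Continuous r

theorem exists_ret {K L : Type} [TopologicalSpace K] [CompactSpace K]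
    [TopologicalSpace L] [CompactSpace L] {Φ : K → L → ℝ}
    (hK : ∀ y, Continuous fun x => Φ x y) (hL : ∀ x, Continuous (Φ x))
    (hsep : ∀ x x', (∀ y, Φ x y = Φ x' y) → x = x')
    {A : Set K} {B : Set L} (h1 : Dns Φ A B) (h2 : Dns (fun y x => Φ x y) B A) :
    ∃ r, IsRet Φ A B r := by
  choose r hr1 hr2 using h1.exists_closure hK
  have hdual : ∀ y, ∃ w ∈ closure B, ∀ z ∈ closure A, Φ z w = Φ z y := by
    intro y
    obtain ⟨w, hw, hwa⟩ := h2.exists_closure (Φ := fun y x => Φ x y) hL y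
    refine ⟨w, hw, fun z hz => ?_⟩
    exact (isClosed_eq (hK w) (hK y)).closure_subset_iff.2 (fun a ha => hwa a ha) hz
  have hext : ∀ z z', (∀ b ∈ B, Φ z b = Φ z' b) → ∀ w ∈ closure B, Φ z w = Φ z' w :=
    fun z z' h w hw => (isClosed_eq (hL z) (hL z')).closure_subset_iff.2 (fun b hb => h b hb) hw
  have hd : ∀ y, ∃ w, ∀ x, Φ (r x) y = Φ x w := by
    intro y
    obtain ⟨w, hw, hwz⟩ := hdual y
    refine ⟨w, fun x => ?_⟩
    rw [← hwz (r x) (hr1 x)]
    exact hext _ _ (hr2 x) w hw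
  refine ⟨r, hr1, hr2, ?_, hd, ?_⟩
  · intro z x hz hzx
    refine hsep _ _ fun y => ?_
    obtain ⟨w, hw, hwz⟩ := hdual y
    rw [← hwz _ (hr1 x), ← hwz _ hz]
    exact hext _ _ (fun b hb => (hr2 x b hb).trans (hzx b hb).symm) w hw
  · have hc : Continuous (fun x : K => (Φ x : L → ℝ)) := continuous_pi hK
    have hi : Function.Injective (fun x : K => (Φ x : L → ℝ)) :=
      fun x x' h => hsep x x' fun y => congrFun h y
    have hemb := (hc.isClosedEmbedding hi).isInducing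
    rw [hemb.continuous_iff]
    refine continuous_pi fun y => ?_
    obtain ⟨w, hw⟩ := hd y
    have : (fun x => ((fun x : K => (Φ x : L → ℝ)) ∘ r) x y) = fun x => Φ x w := funext hw
    rw [this]
    exact hK w

theorem IsRet.fix {K L : Type} [TopologicalSpace K] {Φ : K → L → ℝ} {A : Set K} {B : Set L}
    {r : K → K} (h : IsRet Φ A B r) {a : K} (ha : a ∈ A) : r a = a :=
  h.uniq a a (subset_closure ha) fun _ _ => rfl

theorem IsRet.comp {K L : Type} [TopologicalSpace K] {Φ : K → L → ℝ} {A A' : Set K}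
    {B B' : Set L} {r r' : K → K} (h : IsRet Φ A B r) (h' : IsRet Φ A' B' r') (hB : B ⊆ B')
    (x : K) : r (r' x) = r x :=
  h.uniq _ _ (h.mem x) fun b hb => (h.val x b hb).trans (h'.val x b (hB hb)).symm

end Pool.Agent.MP_d985ac_gt.H83
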