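import Mathlib
import Pool.Agent.MP_d985ac_gt.H83.Closure

set_option autoImplicit false

open Set Filter Topology

namespace Pool.Agent.MP_d985ac_gt.H83

theorem tendsto_of_abs_lt {u : ℕ → ℝ} {a c : ℝ}
    (h : ∀ᶠ j in atTop, |u j - a| < c * (1 / ((j : ℝ) + 1))) : Tendsto u atTop (𝓝 a) := by
  have h0 : Tendsto (fun j : ℕ => c * (1 / ((j : ℝ) + 1))) atTop (𝓝 0) := by
    simpa using (tendsto_one_div_add_atTop_nhds_zero_nat (𝕜 := ℝ)).const_mul c
  rw [tendsto_iff_dist_tendsto_zero]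
  refine squeeze_zero' (Eventually.of_forall fun _ => dist_nonneg) ?_ h0
  filter_upwards [h] with j hj
  rw [Real.dist_eq]
  exact hj.le

theorem eq_of_frequently_close {u : ℕ → ℝ} {a b : ℝ} (hu : Tendsto u atTop (𝓝 a))
    (hb : ∀ ε > 0, ∃ᶠ j in atTop, |u j - b| < ε) : b = a := by
  refine eq_of_forall_dist_le fun ε hε => ?_
  have h1 : ∀ᶠ j in atTop, dist (u j) a < ε / 2 :=
    (Metric.tendsto_nhds.1 hu) (ε / 2) (half_pos hε)
  obtain ⟨j, hj1, hj2⟩ := ((hb (ε / 2) (half_pos hε)).and_eventually h1).exists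
  rw [Real.dist_eq] at hj2 ⊢
  have : b - a = -(u j - b) + (u j - a) := by ring
  rw [this]
  refine (abs_add_le _ _).trans ?_
  rw [abs_neg]
  linarith

/-- Grothendieck-type lemma: a pointwise limit on a compact space of a countably compact family
of continuous functions belongs to the family. -/
theorem groth {κ M : Type} [TopologicalSpace M] [CompactSpace M] (Φ : κ → M → ℝ)
    (hc : ∀ k, Continuous (Φ k))
    (hcc : ∀ c : ℕ → κ, ∃ k, ∀ φ ψ, ∀ ε > 0,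
      ∃ᶠ j in atTop, |Φ (c j) φ - Φ k φ| < ε ∧ |Φ (c j) ψ - Φ k ψ| < ε)
    (g : M → ℝ) (hg : ∀ F : Finset M, ∀ ε > 0, ∃ k, ∀ φ ∈ F, |Φ k φ - g φ| < ε) :
    ∃ k, ∀ φ, Φ k φ = g φ := by
  let Φ' : Option κ → M → ℝ := fun x => x.elim g Φ
  obtain ⟨cl, hsub, -, -, hcount, hX, hY⟩ := exists_pairClosure Φ' (range some)
  let T := cl {Sum.inl none}
  have hT : T.Countable := hcount _ (countable_singleton _)
  have hA : {x : Option κ | Sum.inl x ∈ T}.Countable := hT.preimage Sum.inl_injective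
  have hB : {y : M | Sum.inr y ∈ T}.Countable := hT.preimage Sum.inr_injective
  obtain ⟨F, hF1, hF2⟩ := exists_exhaust hB
  obtain ⟨G, hG1, hG2⟩ := exists_exhaust hA
  have hpos : ∀ j : ℕ, (0 : ℝ) < 1 / ((j : ℝ) + 1) := fun j => Nat.one_div_pos_of_nat
  have hcj : ∀ j : ℕ, ∃ c : κ, Sum.inl (some c) ∈ T ∧
      ∀ y ∈ F j, |Φ c y - g y| < 2 * (1 / ((j : ℝ) + 1)) := by
    intro j
    obtain ⟨k₀, hk₀⟩ := hg (F j) _ (hpos j)
    obtain ⟨a, ⟨c, rfl⟩, ha, hclose⟩ :=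
      hX {Sum.inl none} (some k₀) (mem_range_self _) (F j) (hF1 j) _ (hpos j)
    refine ⟨c, ha, fun y hy => ?_⟩
    have h1 : |Φ c y - Φ k₀ y| < 1 / ((j : ℝ) + 1) := hclose y hy
    have h2 := hk₀ y hy
    have : Φ c y - g y = (Φ c y - Φ k₀ y) + (Φ k₀ y - g y) := by ring
    rw [this]
    refine (abs_add_le _ _).trans_lt ?_
    linarith
  choose c hcT hcg using hcj
  obtain ⟨k, hk⟩ := hcc c
  have hkB : ∀ b, Sum.inr b ∈ T → Φ k b = g b := by
    intro b hb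
    have h1 : Tendsto (fun j => Φ (c j) b) atTop (𝓝 (g b)) := by
      refine tendsto_of_abs_lt (c := 2) ?_
      filter_upwards [hF2 b hb] with j hj using hcg j b hj
    exact eq_of_frequently_close h1 fun ε hε => (hk b b ε hε).mono fun j hj => hj.1
  refine ⟨k, fun φ => ?_⟩
  have hψ : ∀ j : ℕ, ∃ b, Sum.inr b ∈ T ∧
      ∀ x ∈ G j, |Φ' x b - Φ' x φ| < 1 / ((j : ℝ) + 1) := fun j =>
    hY {Sum.inl none} φ (G j) (hG1 j) _ (hpos j)
  choose ψ hψT hψ using hψ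
  obtain ⟨ψ₀, -, hψ₀⟩ := isCompact_iff_ultrafilter_le_nhds.1 (isCompact_univ (X := M))
    ((hyperfilter ℕ).map ψ) (by simp)
  have hψ₀' : Tendsto ψ (hyperfilter ℕ) (𝓝 ψ₀) := hψ₀
  have hlim : ∀ x, Sum.inl x ∈ T → Tendsto (fun j => Φ' x (ψ j)) atTop (𝓝 (Φ' x φ)) := by
    intro x hx
    refine tendsto_of_abs_lt (c := 1) ?_
    filter_upwards [hG2 x hx] with j hj
    simpa using hψ j x hj
  have h1 : ∀ i, Φ (c i) ψ₀ = Φ (c i) φ := by
    intro i
    have ha : Tendsto (fun j => Φ (c i) (ψ j)) (hyperfilter ℕ) (𝓝 (Φ (c i) ψ₀)) :=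
      ((hc (c i)).tendsto ψ₀).comp hψ₀'
    have hb : Tendsto (fun j => Φ (c i) (ψ j)) (hyperfilter ℕ) (𝓝 (Φ (c i) φ)) :=
      (hlim (some (c i)) (hcT i)).mono_left Nat.hyperfilter_le_atTop
    exact tendsto_nhds_unique ha hb
  have h2 : Φ k ψ₀ = g φ := by
    have ha : Tendsto (fun j => Φ k (ψ j)) (hyperfilter ℕ) (𝓝 (Φ k ψ₀)) :=
      ((hc k).tendsto ψ₀).comp hψ₀'
    have hb : Tendsto (fun j => g (ψ j)) (hyperfilter ℕ) (𝓝 (g φ)) :=
      (hlim none (hsub _ (mem_singleton _))).mono_left Nat.hyperfilter_le_atTop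
    have : (fun j => Φ k (ψ j)) = fun j => g (ψ j) := funext fun j => hkB _ (hψT j)
    rw [this] at ha
    exact tendsto_nhds_unique ha hb
  have h3 : Φ k φ = Φ k ψ₀ := by
    refine eq_of_forall_dist_le fun ε hε => ?_
    obtain ⟨j, hj1, hj2⟩ := (hk φ ψ₀ (ε / 2) (half_pos hε)).exists
    rw [h1 j] at hj2
    rw [Real.dist_eq]
    have : Φ k φ - Φ k ψ₀ = -(Φ (c j) φ - Φ k φ) + (Φ (c j) φ - Φ k ψ₀) := by ring
    rw [this]
    refine (abs_add_le _ _).trans ?_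
    rw [abs_neg]
    linarith
  rw [h3, h2]

end Pool.Agent.MP_d985ac_gt.H83
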